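import Pool.Agent.ZGO.StmtsB

/-!
Row JFI of table zgo: facts on the operator `J`.
-/

set_option autoImplicit false

open scoped BigOperators

namespace Pool.Agent.ZGO.H77

theorem fixed_fin {P : Type} [Group P] (p : ℕ) (ψ : P →* P) (X : Type)
    [AddCommGroup X] (θ : X →+ X) (ρ : P →* AddMonoid.End X) (u : Uni p ψ θ ρ) :
    (Jo ρ ⊥ : Set X).Finite := by
  have hfix : ∀ y ∈ Jo ρ (⊥ : AddSubgroup X), ∀ g, ρ g y = y := by
    intro y hy g
    have h := hy g
    rw [AddSubgroup.mem_bot] at h
    exact sub_eq_zero.1 h
  have h := u.sim.smp ⊤ inferInstance (fun g _ => Subgroup.mem_top _) (Jo ρ ⊥) ?_ ?_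
  · rcases h with h | h
    · exfalso
      obtain ⟨g, x, hx⟩ := u.non
      apply hx
      apply hfix
      rw [h]
      exact AddSubgroup.mem_top x
    · exact h
  · intro y hy g
    rw [AddSubgroup.mem_bot, ← u.sim.shf.eqv, hfix y hy, sub_self]
  · intro g _ y hy
    rw [hfix y hy]
    exact hy

/-- JFI. -/
theorem jfi : JfiStmt := by
  intro P _ _ p ψ X _ θ ρ u
  refine ⟨?_, ?_, ?_, ?_, ?_, ?_, ?_⟩
  · intro Y Y' h x hx g
    exact h (hx g)
  · intro Y hY
    obtain ⟨S, hS⟩ := (Group.fg_def (G := P)).1 inferInstance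
    have hfin : (Set.univ.pi fun _ : S => (Y : Set X)).Finite :=
      Set.Finite.pi fun _ => hY
    have h1 : ((fun (x : X) (s : S) => ρ (s : P) x - x) ⁻¹'
        (Set.univ.pi fun _ : S => (Y : Set X))).Finite := by
      apply hfin.preimage'
      intro b _
      rcases Set.eq_empty_or_nonempty ((fun (x : X) (s : S) => ρ (s : P) x - x) ⁻¹' {b}) with h | h
      · rw [h]
        exact Set.finite_empty
      · obtain ⟨x0, hx0⟩ := h
        apply ((fixed_fin p ψ X θ ρ u).image fun y => x0 + y).subset
        intro x hx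
        refine ⟨x - x0, ?_, by simp⟩
        have h2 : ∀ g : P, ρ g (x - x0) = x - x0 := by
          have h3 : ∀ s ∈ S, ρ s (x - x0) = x - x0 := by
            intro s hs
            have h4 := congrFun (hx.trans hx0.symm : (fun s : S => ρ (s : P) x - x) =
              fun s : S => ρ (s : P) x0 - x0) ⟨s, hs⟩
            have h5 : ρ s x - x = ρ s x0 - x0 := h4
            rw [map_sub]
            have h6 : ρ s x - ρ s x0 - (x - x0) = 0 := by
              have h7 : ρ s x - ρ s x0 - (x - x0) = (ρ s x - x) - (ρ s x0 - x0) := by abel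
              rw [h7, h5, sub_self]
            exact sub_eq_zero.1 h6
          intro g
          have hg : g ∈ Subgroup.closure (S : Set P) := by
            rw [hS]
            exact Subgroup.mem_top g
          induction hg using Subgroup.closure_induction with
          | mem s hs => exact h3 s hs
          | one => simp
          | mul a b _ _ ha hb =>
            rw [map_mul]
            show ρ a (ρ b (x - x0)) = x - x0
            rw [hb, ha]
          | inv a _ ha =>
            have h8 : ρ a⁻¹ (ρ a (x - x0)) = x - x0 := by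
              have h9 : ρ (a⁻¹ * a) (x - x0) = x - x0 := by simp
              rw [map_mul] at h9
              exact h9
            rw [ha] at h8
            exact h8
        intro g
        rw [AddSubgroup.mem_bot, h2, sub_self]
    apply h1.subset
    intro x hx s _
    exact hx (s : P)
  · intro Y hY y hy g
    exact Y.sub_mem (hY g y hy) hy
  · intro Y hY g y hy g'
    have h : ρ g' (ρ g y) - ρ g y = ρ g (ρ (g⁻¹ * g' * g) y - y) := by
      rw [map_sub]
      have h1 : ρ g (ρ (g⁻¹ * g' * g) y) = ρ (g * (g⁻¹ * g' * g)) y := by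
        rw [map_mul ρ g]
        rfl
      have h2 : ρ g' (ρ g y) = ρ (g' * g) y := by
        rw [map_mul]
        rfl
      have h3 : g * (g⁻¹ * g' * g) = g' * g := by group
      rw [h1, h2, h3]
    rw [h]
    exact hY _ _ (hy _)
  · intro Y j hY x hx g
    exact hY _ (u.one g j x hx)
  · intro Y hY
    have := u.sim.shf.inf
    obtain ⟨x, hx⟩ := hY.exists_notMem
    obtain ⟨a, ha⟩ := u.sim.shf.nil x
    exact ⟨a, x, ha, hx⟩
  · intro Y hY y hy g
    have h : ρ g (θ y) - θ y = θ (ρ (ψ g) y - y) := by
      rw [map_sub, u.sim.shf.eqv]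
    rw [h]
    exact hY _ (hy _)

end Pool.Agent.ZGO.H77
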